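import Pool.Agent.W69.MH.Defs
import Pool.Agent.W69.HH.Paley

set_option autoImplicit false

namespace Pool.Agent.W298.MH

open Finset Pool.Agent.W69.MH

/-- transport of conference matrices and cores along an equivalence -/
lemma conf_reindex {ι κ : Type} [Fintype ι] [DecidableEq ι] [Fintype κ] [DecidableEq κ]
    (e : κ ≃ ι) (ε m : ℤ) (C : Matrix ι ι ℤ) (h : IsConf ε m C) :
    IsConf ε m (C.submatrix e e) := by
  refine ⟨?_, ?_, ?_, ?_⟩
  · intro i
    exact h.diag (e i)
  · intro i j hij
    exact h.off (e i) (e j) (fun hh => hij (e.injective hh))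
  · intro i j
    exact h.sym (e i) (e j)
  · intro i j hij
    have h1 := h.orth (e i) (e j) (fun hh => hij (e.injective hh))
    have h2 : ∑ k, C.submatrix e e i k * C.submatrix e e j k = ∑ k, C (e i) k * C (e j) k := by
      simp only [Matrix.submatrix_apply]
      exact e.sum_comp (fun k => C (e i) k * C (e j) k)
    rw [h2]
    exact h1

lemma core_reindex {ι κ : Type} [Fintype ι] [DecidableEq ι] [Fintype κ] [DecidableEq κ]
    (e : κ ≃ ι) (ε m : ℤ) (C : Matrix ι ι ℤ) (h : IsCore ε m C) :
    IsCore ε m (C.submatrix e e) := by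
  refine ⟨?_, ?_, ?_, ?_, ?_⟩
  · intro i
    exact h.diag (e i)
  · intro i j hij
    exact h.off (e i) (e j) (fun hh => hij (e.injective hh))
  · intro i j
    exact h.sym (e i) (e j)
  · intro i
    have h2 : ∑ k, C.submatrix e e i k = ∑ k, C (e i) k := by
      simp only [Matrix.submatrix_apply]
      exact e.sum_comp (fun k => C (e i) k)
    rw [h2]
    exact h.row (e i)
  · intro i j hij
    have h1 := h.orth (e i) (e j) (fun hh => hij (e.injective hh))
    have h2 : ∑ k, C.submatrix e e i k * C.submatrix e e j k = ∑ k, C (e i) k * C (e j) k := by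
      simp only [Matrix.submatrix_apply]
      exact e.sum_comp (fun k => C (e i) k * C (e j) k)
    rw [h2]
    exact h1

/-- the Paley core -/
def pq (p : ℕ) [Fact p.Prime] : Matrix (ZMod p) (ZMod p) ℤ :=
  Matrix.of fun i j => quadraticChar (ZMod p) (i - j)

/-- the bordered matrix -/
def pc (p : ℕ) [Fact p.Prime] (ε : ℤ) : Matrix (Option (ZMod p)) (Option (ZMod p)) ℤ
  | none, none => 0
  | none, some _ => 1
  | some _, none => ε
  | some i, some j => quadraticChar (ZMod p) (i - j)

theorem pal : St_PAL := by
  intro ε m p hp hε h4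
  haveI : Fact p.Prime := ⟨hp⟩
  have hp2 : p ≠ 2 := by
    rintro rfl
    rcases hε with rfl | rfl <;> norm_num at h4
  have hchar : ringChar (ZMod p) ≠ 2 := by rwa [ZMod.ringChar_zmod_n]
  have hs0 : ∑ x : ZMod p, quadraticChar (ZMod p) x = 0 := quadraticChar_sum_zero hchar
  have hχ0 : quadraticChar (ZMod p) 0 = 0 := MulChar.map_zero _
  have hneg : quadraticChar (ZMod p) (-1) = ε := by
    rw [quadraticChar_neg_one hchar, ZMod.card]
    rcases hε with rfl | rfl
    · apply ZMod.χ₄_nat_one_mod_four
      omega
    · apply ZMod.χ₄_nat_three_mod_four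
      omega
  have hεε : ε * ε = 1 := by
    rcases hε with rfl | rfl <;> norm_num
  have hnegx : ∀ x : ZMod p, quadraticChar (ZMod p) (-x) = ε * quadraticChar (ZMod p) x := by
    intro x
    rw [← neg_one_mul, map_mul, hneg]
  have hsub : ∀ i : ZMod p, ∑ j : ZMod p, quadraticChar (ZMod p) (i - j) = 0 := by
    intro i
    rw [← hs0]
    exact (Equiv.subLeft i).sum_comp (fun x => quadraticChar (ZMod p) x)
  have hcor : ∀ i i' : ZMod p, i ≠ i' →
      ∑ j : ZMod p, quadraticChar (ZMod p) (i - j) * quadraticChar (ZMod p) (i' - j) = -1 := by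
    intro i i' hii
    rw [← Pool.Agent.W69.HH.sum_shift hp2 (sub_ne_zero.2 hii.symm)]
    rw [← (Equiv.subLeft i).sum_comp
      (fun x => quadraticChar (ZMod p) x * quadraticChar (ZMod p) (x + (i' - i)))]
    refine sum_congr rfl fun j _ => ?_
    simp only [Equiv.subLeft_apply]
    rw [show i - j + (i' - i) = i' - j by ring]
  have hcore : IsCore ε m (pq p) := by
    refine ⟨?_, ?_, ?_, ?_, ?_⟩
    · intro i
      show quadraticChar (ZMod p) (i - i) = 0
      rw [sub_self, hχ0]
    · intro i j hij
      exact quadraticChar_dichotomy (sub_ne_zero.2 hij)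
    · intro i j
      show quadraticChar (ZMod p) (j - i) = ε * quadraticChar (ZMod p) (i - j)
      rw [← hnegx, neg_sub]
    · intro i
      show m ∣ ∑ j : ZMod p, quadraticChar (ZMod p) (i - j)
      rw [hsub]
      exact dvd_zero m
    · intro i j hij
      show m ∣ (∑ k : ZMod p, quadraticChar (ZMod p) (i - k) * quadraticChar (ZMod p) (j - k)) + 1
      rw [hcor i j hij]
      norm_num
  have hconf : IsConf ε m (pc p ε) := by
    refine ⟨?_, ?_, ?_, ?_⟩
    · rintro (_ | i)
      · rfl
      · show quadraticChar (ZMod p) (i - i) = 0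
        rw [sub_self, hχ0]
    · rintro (_ | i) (_ | j) hij
      · exact absurd rfl hij
      · left; rfl
      · exact hε
      · exact quadraticChar_dichotomy (sub_ne_zero.2 (fun h => hij (by rw [h])))
    · rintro (_ | i) (_ | j)
      · show (0 : ℤ) = ε * 0
        ring
      · show ε = ε * 1
        ring
      · show (1 : ℤ) = ε * ε
        rw [hεε]
      · show quadraticChar (ZMod p) (j - i) = ε * quadraticChar (ZMod p) (i - j)
        rw [← hnegx, neg_sub]
    · rintro (_ | i) (_ | j) hij
      · exact absurd rfl hij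
      · rw [Fintype.sum_option]
        show m ∣ 0 * ε + ∑ k : ZMod p, 1 * quadraticChar (ZMod p) (j - k)
        simp only [one_mul, hsub, zero_mul, add_zero, dvd_zero]
      · rw [Fintype.sum_option]
        show m ∣ ε * 0 + ∑ k : ZMod p, quadraticChar (ZMod p) (i - k) * 1
        simp only [mul_one, hsub, mul_zero, add_zero, dvd_zero]
      · rw [Fintype.sum_option]
        show m ∣ ε * ε + ∑ k : ZMod p,
          quadraticChar (ZMod p) (i - k) * quadraticChar (ZMod p) (j - k)
        rw [hεε, hcor i j (fun h => hij (by rw [h]))]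
        norm_num
  constructor
  · have e : Fin p ≃ ZMod p :=
      Fintype.equivOfCardEq (by rw [Fintype.card_fin, ZMod.card])
    exact ⟨_, core_reindex e ε m (pq p) hcore⟩
  · have e : Fin (p + 1) ≃ Option (ZMod p) :=
      Fintype.equivOfCardEq (by rw [Fintype.card_fin, Fintype.card_option, ZMod.card])
    exact ⟨_, conf_reindex e ε m (pc p ε) hconf⟩

end Pool.Agent.W298.MH
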